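import Pool.Agent.H95.NV.Targets1

set_option autoImplicit false

open NumberField
open scoped nonZeroDivisors

namespace Pool.Agent.H41.NV

open Pool.Agent.H95.NV

section Aux

variable {k K : Type} [Field k] [NumberField k] [Field K] [NumberField K] [Algebra k K]

theorem cA (x y : 𝓞 K) : ((x + y : 𝓞 K) : K) = (x : K) + (y : K) := rfl

theorem cM (x y : 𝓞 K) : ((x * y : 𝓞 K) : K) = (x : K) * (y : K) := rfl

theorem cZ : ((0 : 𝓞 K) : K) = 0 := rfl

theorem smulC (c : 𝓞 k) (y : 𝓞 K) :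
    c • (y : K) = ((algebraMap (𝓞 k) (𝓞 K) c * y : 𝓞 K) : K) := by
  rw [Algebra.smul_def, cM]
  rfl

theorem mem_smul_Lt (a : Ideal (𝓞 k)) (N : Submodule (𝓞 k) K) (M : Ideal (𝓞 K))
    (hN : ∀ z : K, z ∈ N ↔ ∃ t ∈ M, (t : K) = z) (z : K) :
    z ∈ a • N ↔ ∃ t ∈ a.map (algebraMap (𝓞 k) (𝓞 K)) * M, (t : K) = z := by
  constructor
  · intro hz
    refine Submodule.smul_induction_on hz ?_ ?_
    · intro r hr n hn
      obtain ⟨t, ht, rfl⟩ := (hN n).mp hn
      exact ⟨algebraMap (𝓞 k) (𝓞 K) r * t, Ideal.mul_mem_mul (Ideal.mem_map_of_mem _ hr) ht,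
        (smulC r t).symm⟩
    · rintro x y ⟨t, ht, rfl⟩ ⟨t', ht', rfl⟩
      exact ⟨t + t', Ideal.add_mem _ ht ht', by rw [cA]⟩
  · rintro ⟨t, ht, rfl⟩
    refine Submodule.mul_induction_on ht ?_ ?_
    · intro x hx
      have key : ∀ y ∈ M, ((x * y : 𝓞 K) : K) ∈ a • N := by
        refine Submodule.span_induction (p := fun x _ => ∀ y ∈ M, ((x * y : 𝓞 K) : K) ∈ a • N)
          ?_ ?_ ?_ ?_ hx
        · rintro x ⟨c, hc, rfl⟩ y hy
          rw [← smulC]
          exact Submodule.smul_mem_smul hc ((hN _).mpr ⟨y, hy, rfl⟩)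
        · intro y _
          rw [zero_mul, cZ]
          exact Submodule.zero_mem _
        · intro x x' _ _ h h' y hy
          rw [add_mul, cA]
          exact Submodule.add_mem _ (h y hy) (h' y hy)
        · intro r x _ h y hy
          have := h (r * y) (Ideal.mul_mem_left _ _ hy)
          rw [smul_eq_mul, mul_comm r x, mul_assoc]
          exact this
      exact key
    · intro x y hx hy
      rw [cA]
      exact Submodule.add_mem _ hx hy

end Aux

theorem pf_EQV (hIDC : T_IDC) : T_EQV := by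
  intro k K _ _ _ _ _ _ _ f D b₀ δ hKD hTrv A A' b b' I I' hA hA' hI hI' l a a' hl ha ha' hz
  obtain ⟨F, hF⟩ : ∃ F : Ideal (𝓞 K), F = f.map (algebraMap (𝓞 k) (𝓞 K)) := ⟨_, rfl⟩
  have hN : ∀ z : K, z ∈ Lt f A b δ ↔ ∃ t ∈ F * (I : Ideal (𝓞 K)), (t : K) = z := by
    intro z
    rw [hF, hI]
    exact (hIDC k K f D b₀ δ hKD A b hA).2.2.1 z
  have hN' : ∀ z : K, z ∈ Lt f A' b' δ ↔ ∃ t ∈ F * (I' : Ideal (𝓞 K)), (t : K) = z := by
    intro z
    rw [hF, hI']
    exact (hIDC k K f D b₀ δ hKD A' b' hA').2.2.1 z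
  have h1 := mem_smul_Lt a (Lt f A b δ) _ hN
  have h2 := mem_smul_Lt a' (Lt f A' b' δ) _ hN'
  obtain ⟨x, y, hy, hxy⟩ := IsFractionRing.div_surjective (A := 𝓞 K) l
  have hy0 : y ≠ 0 := nonZeroDivisors.ne_zero hy
  have hyK : (y : K) ≠ 0 := by
    intro h
    exact hy0 (RingOfIntegers.coe_eq_zero_iff.mp h)
  have hx0 : x ≠ 0 := by
    rintro rfl
    apply hl
    rw [← hxy, map_zero, zero_div]
  have hlx : (x : K) = l * y := by
    rw [← hxy]
    exact (div_mul_cancel₀ _ hyK).symm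
  have hinj : Function.Injective (algebraMap (𝓞 K) K) := RingOfIntegers.coe_injective
  have hspan : Ideal.span {x} * (a.map (algebraMap (𝓞 k) (𝓞 K)) * (F * (I : Ideal (𝓞 K)))) =
      Ideal.span {y} * (a'.map (algebraMap (𝓞 k) (𝓞 K)) * (F * (I' : Ideal (𝓞 K)))) := by
    apply le_antisymm
    · intro u hu
      obtain ⟨z, hzm, rfl⟩ := Ideal.mem_span_singleton_mul.mp hu
      have h3 : (z : K) ∈ a • Lt f A b δ := (h1 _).mpr ⟨z, hzm, rfl⟩
      obtain ⟨t, ht, hte⟩ := (h2 _).mp ((hz _).mp h3)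
      rw [Ideal.mem_span_singleton_mul]
      refine ⟨t, ht, hinj ?_⟩
      rw [map_mul, map_mul]
      change (y : K) * (t : K) = (x : K) * (z : K)
      rw [hte, hlx]
      ring
    · intro u hu
      obtain ⟨t, htm, rfl⟩ := Ideal.mem_span_singleton_mul.mp hu
      have h3 : l * ((t : K) / l) ∈ a' • Lt f A' b' δ := by
        rw [mul_div_cancel₀ _ hl]
        exact (h2 _).mpr ⟨t, htm, rfl⟩
      obtain ⟨z, hzm, hze⟩ := (h1 _).mp ((hz _).mpr h3)
      rw [Ideal.mem_span_singleton_mul]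
      refine ⟨z, hzm, hinj ?_⟩
      rw [map_mul, map_mul]
      change (x : K) * (z : K) = (y : K) * (t : K)
      rw [hze, hlx]
      field_simp
  have ham : a ∈ (Ideal (𝓞 k))⁰ := mem_nonZeroDivisors_iff_ne_zero.mpr ha
  have ham' : a' ∈ (Ideal (𝓞 k))⁰ := mem_nonZeroDivisors_iff_ne_zero.mpr ha'
  have hfm : f ∈ (Ideal (𝓞 k))⁰ := mem_nonZeroDivisors_iff_ne_zero.mpr hKD.f_ne
  constructor
  · have h4 : ClassGroup.mk0 (ext (K := K) ⟨a, ham⟩ * (ext (K := K) ⟨f, hfm⟩ * I)) =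
        ClassGroup.mk0 (ext (K := K) ⟨a', ham'⟩ * (ext (K := K) ⟨f, hfm⟩ * I')) := by
      rw [ClassGroup.mk0_eq_mk0_iff]
      refine ⟨x, y, hx0, hy0, ?_⟩
      rw [hF] at hspan
      exact hspan
    rw [map_mul, map_mul, map_mul, map_mul] at h4
    have h5 := congrArg (QuotientGroup.mk' (Hk k K)) h4
    rw [map_mul, map_mul, map_mul, map_mul] at h5
    have h6 : ∀ J : (Ideal (𝓞 k))⁰, QuotientGroup.mk' (Hk k K) (ClassGroup.mk0 (ext (K := K) J)) = 1 := by
      intro J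
      rw [QuotientGroup.mk'_apply, QuotientGroup.eq_one_iff]
      exact Subgroup.subset_closure ⟨J, rfl⟩
    rw [h6, h6, h6, one_mul, one_mul, one_mul, one_mul] at h5
    exact h5
  · intro hJ
    have hII : (I : Ideal (𝓞 K)) = I' := by rw [hI, hI', hJ]
    have hne : F * (I' : Ideal (𝓞 K)) ≠ 0 := by
      apply mul_ne_zero
      · have := nonZeroDivisors.ne_zero (ext (K := K) ⟨f, hfm⟩).2
        rw [hF]
        exact this
      · exact nonZeroDivisors.ne_zero I'.2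
    rw [hII, ← mul_assoc, ← mul_assoc (Ideal.span {y})] at hspan
    have hs := mul_right_cancel₀ hne hspan
    obtain ⟨p, q, hp, hq, hpq⟩ := hTrv x y a a' hx0 hy0 ha ha' hs
    have hqK : algebraMap k K (q : k) ≠ 0 := by
      intro h
      have h' := (map_eq_zero (algebraMap k K)).mp h
      exact hq (RingOfIntegers.coe_eq_zero_iff.mp h')
    refine ⟨(p : k) / (q : k), ?_⟩
    have h7 := congrArg (fun t : 𝓞 K => (t : K)) hpq
    simp only [map_mul] at h7
    have h8 : algebraMap k K (q : k) * (x : K) = algebraMap k K (p : k) * (y : K) := h7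
    rw [map_div₀, eq_div_iff hqK]
    apply mul_right_cancel₀ hyK
    rw [hlx] at h8
    linear_combination h8

end Pool.Agent.H41.NV
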